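import Pool.Agent.Helper37.PC.Open

/-!
# Project PLANE: the certificates (block CERT)

At the special curve `∏ (y - γ j) = T x ^ d` all monomials of degree at most `M` are combinations, with the
obvious degrees, of the multiples of `G i`, `G j` and `f`, respectively of `G i`, `f` and the monomials `x ^ l y ^ b` with
`l < d`, `b < n`.  By `open_span` this is true near the special curve.
-/

universe u v w

namespace Pool.Agent.PC

open MvPolynomial

section spanning

variable {A : Type u} [Field A]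

theorem mem_span_iff45 {I : Type} [Fintype I] (col : I → MvPolynomial (Fin 2) A)
    (P : MvPolynomial (Fin 2) A) :
    P ∈ Submodule.span A (Set.range col) ↔ ∃ c : I → A, P = ∑ i, C (c i) * col i := by
  rw [Submodule.mem_span_range_iff_exists_fun]
  constructor
  · rintro ⟨c, rfl⟩
    exact ⟨c, Finset.sum_congr rfl fun i _ => by rw [smul_eq_C_mul]⟩
  · rintro ⟨c, rfl⟩
    exact ⟨c, Finset.sum_congr rfl fun i _ => by rw [smul_eq_C_mul]⟩

/-- multiples -/
theorem mul_mem45 {S : Submodule A (MvPolynomial (Fin 2) A)} {m : ℕ} {G : MvPolynomial (Fin 2) A}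
    (hS : ∀ a : Mon m, mono A a * G ∈ S) {P : MvPolynomial (Fin 2) A} (hP : P.totalDegree ≤ m) :
    P * G ∈ S := by
  obtain ⟨g, rfl⟩ := exists_pol hP
  unfold pol
  rw [Finset.sum_mul]
  refine Submodule.sum_mem _ fun q _ => ?_
  rw [mul_assoc, ← smul_eq_C_mul]
  exact Submodule.smul_mem _ _ (hS q)

theorem X_pow_eq45 (i j : ℕ) : (X 0 ^ i * X 1 ^ j : MvPolynomial (Fin 2) A).totalDegree ≤ i + j := by
  refine (totalDegree_mul _ _).trans ?_
  rw [totalDegree_X_pow, totalDegree_X_pow]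

/-- polynomials in `y` -/
theorem aeval_eq45 (P : Polynomial A) :
    Polynomial.aeval (X 1 : MvPolynomial (Fin 2) A) P =
      ∑ b ∈ Finset.range (P.natDegree + 1), C (P.coeff b) * X 1 ^ b := by
  rw [Polynomial.aeval_eq_sum_range]
  exact Finset.sum_congr rfl fun i _ => by rw [smul_eq_C_mul]

theorem degree_aeval45 (P : Polynomial A) (l : ℕ) :
    (X 0 ^ l * Polynomial.aeval (X 1 : MvPolynomial (Fin 2) A) P).totalDegree ≤ l + P.natDegree := by
  rw [aeval_eq45, Finset.mul_sum]
  refine (totalDegree_finsetSum _ _).trans (Finset.sup_le fun b hb => ?_)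
  have h1 : (X 0 ^ l * (C (P.coeff b) * X 1 ^ b) : MvPolynomial (Fin 2) A) =
      C (P.coeff b) * (X 0 ^ l * X 1 ^ b) := by ring
  rw [h1]
  refine (totalDegree_mul _ _).trans ?_
  rw [totalDegree_C, zero_add]
  have h2 := X_pow_eq45 (A := A) l b
  have h3 := Finset.mem_range.1 hb
  omega

/-- reduction modulo the special curve -/
theorem reduce45 {S : Submodule A (MvPolynomial (Fin 2) A)} {d M : ℕ} (hd : 0 < d) (hdM : d ≤ M) {T : A}
    (hT : T ≠ 0) (γ : Fin d → A)
    (h1 : ∀ a : Mon (M - d), mono A a * (∏ j, (X 1 - C (γ j)) - C T * X 0 ^ d) ∈ S)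
    (h2 : ∀ l b : ℕ, l < d → l + b ≤ M → (X 0 ^ l * X 1 ^ b : MvPolynomial (Fin 2) A) ∈ S) :
    ∀ i j : ℕ, i + j ≤ M → (X 0 ^ i * X 1 ^ j : MvPolynomial (Fin 2) A) ∈ S := by
  intro i
  induction i using Nat.strong_induction_on with
  | _ i ih =>
    intro j hij
    by_cases hi : i < d
    · exact h2 i j hi hij
    · push Not at hi
      -- `h` as a polynomial in `y`
      obtain ⟨H, hH⟩ : ∃ H : Polynomial A, H = ∏ j, (Polynomial.X - Polynomial.C (γ j)) := ⟨_, rfl⟩
      have hHd : H.natDegree = d := by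
        rw [hH, Polynomial.natDegree_finsetProd_X_sub_C_eq_card]
        simp
      have hHa : Polynomial.aeval (X 1 : MvPolynomial (Fin 2) A) H = ∏ j, (X 1 - C (γ j)) := by
        rw [hH, map_prod]
        refine Finset.prod_congr rfl fun k _ => ?_
        rw [map_sub, Polynomial.aeval_X, Polynomial.aeval_C]
        rfl
      have e1 : (C T * (X 0 ^ i * X 1 ^ j) : MvPolynomial (Fin 2) A) =
          X 0 ^ (i - d) * X 1 ^ j * ∏ j, (X 1 - C (γ j)) -
            X 0 ^ (i - d) * X 1 ^ j * (∏ j, (X 1 - C (γ j)) - C T * X 0 ^ d) := by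
        have h3 : (X 0 ^ i : MvPolynomial (Fin 2) A) = X 0 ^ (i - d) * X 0 ^ d := by
          rw [← pow_add, Nat.sub_add_cancel hi]
        rw [h3]
        ring
      have h3 : (X 0 ^ (i - d) * X 1 ^ j * ∏ j, (X 1 - C (γ j)) : MvPolynomial (Fin 2) A) ∈ S := by
        rw [← hHa, aeval_eq45, Finset.mul_sum]
        refine Submodule.sum_mem _ fun b hb => ?_
        have h4 : (X 0 ^ (i - d) * X 1 ^ j * (C (H.coeff b) * X 1 ^ b) : MvPolynomial (Fin 2) A) =
            (H.coeff b) • (X 0 ^ (i - d) * X 1 ^ (j + b)) := by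
          rw [smul_eq_C_mul]
          ring
        rw [h4]
        have h5 := Finset.mem_range.1 hb
        refine Submodule.smul_mem _ _ (ih (i - d) (by omega) (j + b) (by omega))
      have h4 : (X 0 ^ (i - d) * X 1 ^ j * (∏ j, (X 1 - C (γ j)) - C T * X 0 ^ d) :
          MvPolynomial (Fin 2) A) ∈ S := by
        refine mul_mem45 h1 ((X_pow_eq45 _ _).trans (by omega))
      have h5 := S.sub_mem h3 h4
      rw [← e1, ← smul_eq_C_mul] at h5
      have h6 := S.smul_mem T⁻¹ h5
      rwa [smul_smul, inv_mul_cancel₀ hT, one_smul] at h6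

/-- the polynomial `(y - γ) (y - γ - 1) ^ e` -/
noncomputable def gg45 (e : ℕ) (γ : A) : Polynomial A :=
  (Polynomial.X - Polynomial.C γ) * (Polynomial.X - Polynomial.C γ - 1) ^ e

theorem gg45_eq (e : ℕ) (γ : A) : gg45 e γ =
    (Polynomial.X - Polynomial.C γ) * (Polynomial.X - Polynomial.C (γ + 1)) ^ e := by
  rw [gg45, Polynomial.C_add, Polynomial.C_1]
  congr 2
  ring

theorem gg45_monic (e : ℕ) (γ : A) : (gg45 e γ).Monic := by
  rw [gg45_eq]
  exact (Polynomial.monic_X_sub_C γ).mul ((Polynomial.monic_X_sub_C _).pow e)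

theorem gg45_natDegree (e : ℕ) (γ : A) : (gg45 e γ).natDegree = 1 + e := by
  rw [gg45_eq, (Polynomial.monic_X_sub_C γ).natDegree_mul ((Polynomial.monic_X_sub_C _).pow e),
    (Polynomial.monic_X_sub_C _).natDegree_pow, Polynomial.natDegree_X_sub_C,
    Polynomial.natDegree_X_sub_C, mul_one]

theorem gg45_aeval (e : ℕ) (γ : A) :
    Polynomial.aeval (X 1 : MvPolynomial (Fin 2) A) (gg45 e γ) =
      (X 1 - C γ) * (X 1 - C γ - 1) ^ e := by
  simp only [gg45, map_mul, map_pow, map_sub, Polynomial.aeval_X, Polynomial.aeval_C, map_one]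
  rfl

theorem gg45_coprime {e : ℕ} {γ γ' : A} (h1 : γ ≠ γ') (h2 : γ ≠ γ' + 1) (h3 : γ' ≠ γ + 1) :
    IsCoprime (gg45 e γ) (gg45 e γ') := by
  have hX : ∀ {a b : A}, a ≠ b → IsCoprime (Polynomial.X - Polynomial.C a : Polynomial A)
      (Polynomial.X - Polynomial.C b) := fun {a b} h =>
    Polynomial.isCoprime_X_sub_C_of_isUnit_sub (sub_ne_zero.mpr h).isUnit
  rw [gg45_eq, gg45_eq]
  refine IsCoprime.mul_left (IsCoprime.mul_right (hX h1) (IsCoprime.pow_right (hX h2)))
    (IsCoprime.mul_right (IsCoprime.pow_left (hX h3.symm)) (IsCoprime.pow (hX fun h => h1 ?_)))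
  exact add_right_cancel h

/-- Bezout with degrees -/
theorem bezout45 {g g' : Polynomial A} {n D : ℕ} (hg : g.Monic) (hg' : g'.Monic) (hn : g.natDegree = n)
    (hn' : g'.natDegree = n) (hn0 : 0 < n) (h : IsCoprime g g') (hD : 2 * n ≤ D + 1) {P : Polynomial A}
    (hP : P.natDegree ≤ D) : ∃ a b : Polynomial A, a.natDegree ≤ D - n ∧ b.natDegree ≤ D - n ∧
      P = a * g + b * g' := by
  obtain ⟨u, v, huv⟩ := h
  have e0 := Polynomial.modByMonic_add_div (P * v) g
  have hb : (P * v %ₘ g).natDegree ≤ n - 1 := by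
    have h1 := Polynomial.natDegree_modByMonic_lt (P * v) hg (by
      intro h
      rw [h, Polynomial.natDegree_one] at hn
      omega)
    omega
  refine ⟨P * u + (P * v /ₘ g) * g', P * v %ₘ g, ?_, by omega, ?_⟩
  · by_cases ha : P * u + (P * v /ₘ g) * g' = 0
    · rw [ha, Polynomial.natDegree_zero]
      exact Nat.zero_le _
    · have h1 : (P * u + (P * v /ₘ g) * g') * g = P - (P * v %ₘ g) * g' := by
        linear_combination g' * e0 + P * huv
      have h2 : ((P * u + (P * v /ₘ g) * g') * g).natDegree =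
          (P * u + (P * v /ₘ g) * g').natDegree + n := by
        rw [mul_comm, hg.natDegree_mul' ha, hn, add_comm]
      have h3 : (P - (P * v %ₘ g) * g').natDegree ≤ D := by
        refine (Polynomial.natDegree_sub_le _ _).trans (max_le hP ?_)
        refine Polynomial.natDegree_mul_le.trans ?_
        omega
      rw [← h1, h2] at h3
      omega
  · linear_combination (-g') * e0 - P * huv

/-- the two polynomials in `y` and the special curve -/
theorem sp_cop45 {S : Submodule A (MvPolynomial (Fin 2) A)} {d e M : ℕ} (hd : 0 < d)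
    (hM : 2 * (1 + e) + d ≤ M) {T : A} (hT : T ≠ 0) (γ : Fin d → A) {a a' : A} (h1 : a ≠ a')
    (h2 : a ≠ a' + 1) (h3 : a' ≠ a + 1)
    (hS1 : ∀ q : Mon (M - (1 + e)), mono A q * ((X 1 - C a) * (X 1 - C a - 1) ^ e) ∈ S)
    (hS2 : ∀ q : Mon (M - (1 + e)), mono A q * ((X 1 - C a') * (X 1 - C a' - 1) ^ e) ∈ S)
    (hS3 : ∀ q : Mon (M - d), mono A q * (∏ j, (X 1 - C (γ j)) - C T * X 0 ^ d) ∈ S)
    (q : Mon M) : mono A q ∈ S := by
  unfold mono
  refine reduce45 hd (by omega) hT γ hS3 ?_ (q.1.1 : ℕ) (q.1.2 : ℕ) q.2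
  intro l b hl hlb
  obtain ⟨u, v, hu, hv, huv⟩ := bezout45 (gg45_monic e a) (gg45_monic e a') (gg45_natDegree e a)
    (gg45_natDegree e a') (by omega) (gg45_coprime h1 h2 h3) (D := M - l) (by omega)
    (P := Polynomial.X ^ b) (by rw [Polynomial.natDegree_X_pow]; omega)
  have e1 := congrArg (Polynomial.aeval (X 1 : MvPolynomial (Fin 2) A)) huv
  rw [map_pow, Polynomial.aeval_X, map_add, map_mul, map_mul, gg45_aeval, gg45_aeval] at e1
  have h4 := mul_mem45 hS1 ((degree_aeval45 u l).trans (by omega))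
  have h5 := mul_mem45 hS2 ((degree_aeval45 v l).trans (by omega))
  have e2 : (X 0 ^ l * X 1 ^ b : MvPolynomial (Fin 2) A) =
      X 0 ^ l * Polynomial.aeval (X 1) u * ((X 1 - C a) * (X 1 - C a - 1) ^ e) +
      X 0 ^ l * Polynomial.aeval (X 1) v * ((X 1 - C a') * (X 1 - C a' - 1) ^ e) := by
    rw [e1]
    ring
  rw [e2]
  exact S.add_mem h4 h5

/-- one polynomial in `y`, the special curve and the monomials `x ^ l y ^ b`, `l < d`, `b < n` -/
theorem sp_norm45 {S : Submodule A (MvPolynomial (Fin 2) A)} {d e M : ℕ} (hd : 0 < d)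
    (hM : (1 + e) + d ≤ M) {T : A} (hT : T ≠ 0) (γ : Fin d → A) {a : A}
    (hS1 : ∀ q : Mon (M - (1 + e)), mono A q * ((X 1 - C a) * (X 1 - C a - 1) ^ e) ∈ S)
    (hS2 : ∀ q : Mon (M - d), mono A q * (∏ j, (X 1 - C (γ j)) - C T * X 0 ^ d) ∈ S)
    (hS3 : ∀ (l : Fin d) (b : Fin (1 + e)), (X 0 ^ (l : ℕ) * X 1 ^ (b : ℕ) : MvPolynomial (Fin 2) A) ∈ S)
    (q : Mon M) : mono A q ∈ S := by
  unfold mono
  refine reduce45 hd (by omega) hT γ hS2 ?_ (q.1.1 : ℕ) (q.1.2 : ℕ) q.2
  intro l b hl hlb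
  have hg := gg45_monic e a
  have e0 := Polynomial.modByMonic_add_div (Polynomial.X ^ b) (gg45 e a)
  have e1 := congrArg (Polynomial.aeval (X 1 : MvPolynomial (Fin 2) A)) e0
  rw [map_add, map_mul, map_pow, Polynomial.aeval_X, gg45_aeval] at e1
  rw [← e1, mul_add]
  refine S.add_mem ?_ ?_
  · rw [aeval_eq45, Finset.mul_sum]
    refine Submodule.sum_mem _ fun b' hb' => ?_
    have h4 : (X 0 ^ l * (C ((Polynomial.X ^ b %ₘ gg45 e a).coeff b') * X 1 ^ b') :
        MvPolynomial (Fin 2) A) =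
        ((Polynomial.X ^ b %ₘ gg45 e a).coeff b') • (X 0 ^ l * X 1 ^ b') := by
      rw [smul_eq_C_mul]
      ring
    rw [h4]
    have h5 := Finset.mem_range.1 hb'
    have h6 := Polynomial.natDegree_modByMonic_lt (Polynomial.X ^ b : Polynomial A) hg (by
      intro h
      have := gg45_natDegree e a
      rw [h, Polynomial.natDegree_one] at this
      omega)
    rw [gg45_natDegree] at h6
    exact S.smul_mem _ (hS3 ⟨l, hl⟩ ⟨b', by omega⟩)
  · have h7 : (X 0 ^ l * ((X 1 - C a) * (X 1 - C a - 1) ^ e *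
        Polynomial.aeval (X 1 : MvPolynomial (Fin 2) A) (Polynomial.X ^ b /ₘ gg45 e a))) =
        (X 0 ^ l * Polynomial.aeval (X 1 : MvPolynomial (Fin 2) A) (Polynomial.X ^ b /ₘ gg45 e a)) *
          ((X 1 - C a) * (X 1 - C a - 1) ^ e) := by ring
    rw [h7]
    have h8 : l + (Polynomial.X ^ b /ₘ gg45 e a).natDegree ≤ M - (1 + e) := by
      rw [Polynomial.natDegree_divByMonic _ hg, Polynomial.natDegree_X_pow, gg45_natDegree]
      omega
    exact mul_mem45 hS1 ((degree_aeval45 _ _).trans h8)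

end spanning

section columns

/-- the columns of the certificate `Cop` -/
noncomputable def colC45 {R : Type u} [CommRing R] (M n d : ℕ) (G G' f : MvPolynomial (Fin 2) R) :
    Mon (M - n) ⊕ (Mon (M - n) ⊕ Mon (M - d)) → MvPolynomial (Fin 2) R :=
  Sum.elim (fun a => mono R a * G) (Sum.elim (fun a => mono R a * G') fun a => mono R a * f)

/-- the columns of the norm certificate -/
noncomputable def colN45 {R : Type u} [CommRing R] (M n d : ℕ) (G f : MvPolynomial (Fin 2) R) :
    Mon (M - n) ⊕ (Mon (M - d) ⊕ (Fin d × Fin n)) → MvPolynomial (Fin 2) R :=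
  Sum.elim (fun a => mono R a * G) (Sum.elim (fun a => mono R a * f)
    fun lb => X 0 ^ (lb.1 : ℕ) * X 1 ^ (lb.2 : ℕ))

theorem map_colC45 {R : Type u} {R' : Type v} [CommRing R] [CommRing R'] (φ : R →+* R') (M n d : ℕ)
    (G G' f : MvPolynomial (Fin 2) R) (i : Mon (M - n) ⊕ (Mon (M - n) ⊕ Mon (M - d))) :
    map φ (colC45 M n d G G' f i) = colC45 M n d (map φ G) (map φ G') (map φ f) i := by
  rcases i with a | a | a
  · simp only [colC45, Sum.elim_inl, map_mul, map_mono]
  · simp only [colC45, Sum.elim_inl, Sum.elim_inr, map_mul, map_mono]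
  · simp only [colC45, Sum.elim_inr, map_mul, map_mono]

theorem map_colN45 {R : Type u} {R' : Type v} [CommRing R] [CommRing R'] (φ : R →+* R') (M n d : ℕ)
    (G f : MvPolynomial (Fin 2) R) (i : Mon (M - n) ⊕ (Mon (M - d) ⊕ (Fin d × Fin n))) :
    map φ (colN45 M n d G f i) = colN45 M n d (map φ G) (map φ f) i := by
  rcases i with a | a | a
  · simp only [colN45, Sum.elim_inl, map_mul, map_mono]
  · simp only [colN45, Sum.elim_inl, Sum.elim_inr, map_mul, map_mono]
  · simp only [colN45, Sum.elim_inr, map_mul, map_pow, map_X]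

theorem deg_mono45 {R : Type u} [CommRing R] {n : ℕ} (q : Mon n) : (mono R q).totalDegree ≤ n := by
  unfold mono
  have h1 := totalDegree_mul (X 0 ^ (q.1.1 : ℕ) : MvPolynomial (Fin 2) R) (X 1 ^ (q.1.2 : ℕ))
  have h2 : (X 0 ^ (q.1.1 : ℕ) : MvPolynomial (Fin 2) R).totalDegree ≤ q.1.1 := by
    rw [X_pow_eq_monomial]
    refine (totalDegree_monomial_le _ _).trans ?_
    simp
  have h3 : (X 1 ^ (q.1.2 : ℕ) : MvPolynomial (Fin 2) R).totalDegree ≤ q.1.2 := by
    rw [X_pow_eq_monomial]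
    refine (totalDegree_monomial_le _ _).trans ?_
    simp
  have h4 := q.2
  omega

theorem deg_mono_mul45 {R : Type u} [CommRing R] {M n : ℕ} (hn : n ≤ M) (q : Mon (M - n))
    {G : MvPolynomial (Fin 2) R} (hG : G.totalDegree ≤ n) : (mono R q * G).totalDegree ≤ M := by
  have h1 := totalDegree_mul (mono R q) G
  have h2 := deg_mono45 (R := R) q
  omega

theorem deg_colC45 {R : Type u} [CommRing R] {M n d : ℕ} (hn : n ≤ M) (hd : d ≤ M)
    {G G' f : MvPolynomial (Fin 2) R} (hG : G.totalDegree ≤ n) (hG' : G'.totalDegree ≤ n)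
    (hf : f.totalDegree ≤ d) (i : Mon (M - n) ⊕ (Mon (M - n) ⊕ Mon (M - d))) :
    (colC45 M n d G G' f i).totalDegree ≤ M := by
  rcases i with a | a | a
  · exact deg_mono_mul45 hn a hG
  · exact deg_mono_mul45 hn a hG'
  · exact deg_mono_mul45 hd a hf

theorem deg_colN45 {R : Type u} [CommRing R] {M n d : ℕ} (hn : n + d ≤ M)
    {G f : MvPolynomial (Fin 2) R} (hG : G.totalDegree ≤ n)
    (hf : f.totalDegree ≤ d) (i : Mon (M - n) ⊕ (Mon (M - d) ⊕ (Fin d × Fin n))) :
    (colN45 M n d G f i).totalDegree ≤ M := by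
  rcases i with a | a | ⟨l, b⟩
  · exact deg_mono_mul45 (by omega) a hG
  · exact deg_mono_mul45 (by omega) a hf
  · have h1 := deg_mono45 (R := R) (n := M) ⟨(⟨l, by omega⟩, ⟨b, by omega⟩), by
      simp only
      omega⟩
    exact h1

/-- the certificate `Cop` from the spanning property -/
theorem cop_of45 {K : Type u} [Field K] {M n d : ℕ} {G G' : Mon n → K} {f : Mon d → K}
    (h : ∀ q : Mon M, ∃ c : Mon (M - n) ⊕ (Mon (M - n) ⊕ Mon (M - d)) → K,
      mono K q = ∑ i, C (c i) * colC45 M n d (pol G) (pol G') (pol f) i) : Cop G G' f M := by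
  intro q
  obtain ⟨c, hc⟩ := h q
  refine ⟨fun a => c (Sum.inl a), fun a => c (Sum.inr (Sum.inl a)),
    fun a => c (Sum.inr (Sum.inr a)), ?_⟩
  rw [hc, Fintype.sum_sum_type, Fintype.sum_sum_type]
  simp only [colC45, Sum.elim_inl, Sum.elim_inr]
  have e : ∀ {m : ℕ} (c : Mon m → K) (P : MvPolynomial (Fin 2) K),
      ∑ a, C (c a) * (mono K a * P) = pol c * P := by
    intro m c P
    unfold pol
    rw [Finset.sum_mul]
    exact Finset.sum_congr rfl fun _ _ => (mul_assoc _ _ _).symm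
  rw [e, e, e]
  ring

/-- the norm certificate from the spanning property -/
theorem norm_of45 {K : Type u} [Field K] {M n d : ℕ} (hM : d * n ≤ M) {G : Mon n → K} {f : Mon d → K}
    (h : ∀ q : Mon M, ∃ c : Mon (M - n) ⊕ (Mon (M - d) ⊕ (Fin d × Fin n)) → K,
      mono K q = ∑ i, C (c i) * colN45 M n d (pol G) (pol f) i) :
    ∃ (D D' : Mon M → K) (c : Fin (M + 1) → K), c ≠ 0 ∧
      pol D * pol G + pol D' * pol f = polX c := by
  classical
  let Q : Fin (M + 1) → Mon M := fun k => ⟨(k, 0), by simpa using Nat.lt_succ_iff.1 k.2⟩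
  choose c hc using fun k => h (Q k)
  have hmono : ∀ k, mono K (Q k) = X 0 ^ (k : ℕ) := fun k => by simp [mono, Q]
  let Λ : (Fin (M + 1) → K) →ₗ[K] (Fin d × Fin n → K) :=
    { toFun := fun a lb => ∑ k, a k * c k (Sum.inr (Sum.inr lb))
      map_add' := fun a b => by
        funext lb
        simp only [Pi.add_apply, add_mul, Finset.sum_add_distrib]
      map_smul' := fun r a => by
        funext lb
        simp only [Pi.smul_apply, smul_eq_mul, RingHom.id_apply, Finset.mul_sum, mul_assoc] }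
  have hker : LinearMap.ker Λ ≠ ⊥ := by
    apply LinearMap.ker_ne_bot_of_finrank_lt
    rw [Module.finrank_fintype_fun_eq_card, Module.finrank_fintype_fun_eq_card, Fintype.card_prod,
      Fintype.card_fin, Fintype.card_fin, Fintype.card_fin]
    omega
  obtain ⟨a, ha, ha0⟩ := (Submodule.ne_bot_iff _).1 hker
  have ha' : ∀ lb, ∑ k, a k * c k (Sum.inr (Sum.inr lb)) = 0 := fun lb =>
    congrFun (LinearMap.mem_ker.1 ha) lb
  have e : ∀ {m : ℕ} (c : Mon m → K) (P : MvPolynomial (Fin 2) K),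
      ∑ a, C (c a) * (mono K a * P) = pol c * P := by
    intro m c P
    unfold pol
    rw [Finset.sum_mul]
    exact Finset.sum_congr rfl fun _ _ => (mul_assoc _ _ _).symm
  have h1 : ∀ k : Fin (M + 1), (X 0 ^ (k : ℕ) : MvPolynomial (Fin 2) K) =
      pol (fun a => c k (Sum.inl a)) * pol G + (pol (fun a => c k (Sum.inr (Sum.inl a))) * pol f +
        ∑ lb : Fin d × Fin n, C (c k (Sum.inr (Sum.inr lb))) *
          (X 0 ^ (lb.1 : ℕ) * X 1 ^ (lb.2 : ℕ))) := by
    intro k
    rw [← hmono, hc k, Fintype.sum_sum_type, Fintype.sum_sum_type]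
    simp only [colN45, Sum.elim_inl, Sum.elim_inr]
    rw [e, e]
  obtain ⟨D, hD⟩ : ∃ D : Mon M → K, pol D = ∑ k, C (a k) * pol (fun a => c k (Sum.inl a)) := by
    refine exists_pol ((totalDegree_finsetSum _ _).trans (Finset.sup_le fun k _ => ?_))
    refine (totalDegree_mul _ _).trans ?_
    rw [totalDegree_C, zero_add]
    exact (totalDegree_pol_le _).trans (Nat.sub_le _ _)
  obtain ⟨D', hD'⟩ : ∃ D' : Mon M → K, pol D' =
      ∑ k, C (a k) * pol (fun a => c k (Sum.inr (Sum.inl a))) := by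
    refine exists_pol ((totalDegree_finsetSum _ _).trans (Finset.sup_le fun k _ => ?_))
    refine (totalDegree_mul _ _).trans ?_
    rw [totalDegree_C, zero_add]
    exact (totalDegree_pol_le _).trans (Nat.sub_le _ _)
  refine ⟨D, D', a, ha0, ?_⟩
  have h2 : polX a = ∑ k, C (a k) * (X 0 ^ (k : ℕ) : MvPolynomial (Fin 2) K) := rfl
  have h3 : ∑ k, C (a k) * ∑ lb : Fin d × Fin n, C (c k (Sum.inr (Sum.inr lb))) *
      (X 0 ^ (lb.1 : ℕ) * X 1 ^ (lb.2 : ℕ) : MvPolynomial (Fin 2) K) = 0 := by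
    simp only [Finset.mul_sum]
    rw [Finset.sum_comm]
    refine Finset.sum_eq_zero fun lb _ => ?_
    simp only [← mul_assoc, ← C_mul]
    rw [← Finset.sum_mul, ← Finset.sum_mul, ← map_sum, ha' lb, C_0, zero_mul, zero_mul]
  rw [h2, hD, hD']
  conv_rhs => enter [2, k]; rw [h1 k, mul_add, mul_add]
  rw [Finset.sum_add_distrib, Finset.sum_add_distrib, h3, add_zero, Finset.sum_mul, Finset.sum_mul]
  exact congrArg₂ (· + ·) (Finset.sum_congr rfl fun _ _ => mul_assoc _ _ _)
    (Finset.sum_congr rfl fun _ _ => mul_assoc _ _ _)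

end columns

/-- **CERT.**  The certificates at the special curve propagate.  `K ⊆ L ⊇ A⟦ε⟧`. -/
theorem exists_cert {A : Type u} [Field A] {d p : ℕ} (hd : 0 < d) {T : A} (hT : T ≠ 0) {γ : Fin d → A}
    (hγ : Function.Injective γ) (hγ1 : ∀ i j, γ i ≠ γ j + 1) {f : Mon d → PowerSeries A}
    (hf : pol (fun q => PowerSeries.constantCoeff (f q)) = ∏ j, (X 1 - C (γ j)) - C T * X 0 ^ d)
    {G : Fin d → Mon (1 + p * d) → PowerSeries A}
    (hG : ∀ i, pol (fun q => PowerSeries.constantCoeff (G i q)) =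
      (X 1 - C (γ i)) * (X 1 - C (γ i) - 1) ^ (p * d))
    {L K : Type u} [Field L] [Field K] (ψ : PowerSeries A →+* L) (hψ : Function.Injective ψ)
    (ι : K →+* L) {fK : Mon d → K} {GK : Fin d → Mon (1 + p * d) → K}
    (hfK : ∀ a, ι (fK a) = ψ (f a)) (hGK : ∀ i a, ι (GK i a) = ψ (G i a)) :
    ∃ M : ℕ, 1 + p * d ≤ M ∧ (∀ i j, i ≠ j → Cop (GK i) (GK j) fK M) ∧
      ∃ (D D' : Fin d → Mon M → K) (c : Fin d → Fin (M + 1) → K), ∀ i, c i ≠ 0 ∧
        pol (D i) * pol (GK i) + pol (D' i) * pol fK = polX (c i) := by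
  classical
  have hfm : map ψ (pol f) = map ι (pol fK) := by
    rw [map_pol, map_pol]
    congr 1
    funext a
    exact (hfK a).symm
  have hGm : ∀ i, map ψ (pol (G i)) = map ι (pol (GK i)) := by
    intro i
    rw [map_pol, map_pol]
    congr 1
    funext a
    exact (hGK i a).symm
  have hf0 : map PowerSeries.constantCoeff (pol f) = ∏ j, (X 1 - C (γ j)) - C T * X 0 ^ d := by
    rw [map_pol]
    exact hf
  have hG0 : ∀ i, map PowerSeries.constantCoeff (pol (G i)) =
      (X 1 - C (γ i)) * (X 1 - C (γ i) - 1) ^ (p * d) := by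
    intro i
    rw [map_pol]
    exact hG i
  obtain ⟨M, hM⟩ : ∃ M : ℕ, M = d * (1 + p * d) + (2 * (1 + p * d) + d) := ⟨_, rfl⟩
  have hM1 : 2 * (1 + p * d) + d ≤ M := by rw [hM]; exact Nat.le_add_left _ _
  have hM2 : d * (1 + p * d) ≤ M := by rw [hM]; exact Nat.le_add_right _ _
  have hspan : ∀ {I : Type} [Fintype I] (col : I → MvPolynomial (Fin 2) A) (i : I),
      col i ∈ Submodule.span A (Set.range col) := fun col i =>
    Submodule.subset_span ⟨i, rfl⟩
  refine ⟨M, by omega, fun i j hij => ?_, ?_⟩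
  · apply cop_of45
    intro q
    refine open_span PowerSeries.constantCoeff ψ hψ ι
      (colR := colC45 M (1 + p * d) d (pol (G i)) (pol (G j)) (pol f)) (fun a => ?_) (fun a => ?_)
      (fun q => ?_) q
    · rw [map_colC45, map_colC45, hGm, hGm, hfm]
    · exact deg_colC45 (by omega) (by omega) (totalDegree_pol_le _) (totalDegree_pol_le _)
        (totalDegree_pol_le _) a
    · rw [← mem_span_iff45]
      have e : (fun a => map PowerSeries.constantCoeff
          (colC45 M (1 + p * d) d (pol (G i)) (pol (G j)) (pol f) a)) =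
          colC45 M (1 + p * d) d ((X 1 - C (γ i)) * (X 1 - C (γ i) - 1) ^ (p * d))
            ((X 1 - C (γ j)) * (X 1 - C (γ j) - 1) ^ (p * d))
            (∏ j, (X 1 - C (γ j)) - C T * X 0 ^ d) := by
        funext a
        rw [map_colC45, hG0, hG0, hf0]
      rw [e]
      exact sp_cop45 hd hM1 hT γ (fun h => hij (hγ h)) (hγ1 i j) (hγ1 j i)
        (fun a => hspan _ (Sum.inl a)) (fun a => hspan _ (Sum.inr (Sum.inl a)))
        (fun a => hspan _ (Sum.inr (Sum.inr a))) q
  · have h1 : ∀ i, ∃ (D D' : Mon M → K) (c : Fin (M + 1) → K), c ≠ 0 ∧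
        pol D * pol (GK i) + pol D' * pol fK = polX c := by
      intro i
      apply norm_of45 hM2
      intro q
      refine open_span PowerSeries.constantCoeff ψ hψ ι
        (colR := colN45 M (1 + p * d) d (pol (G i)) (pol f)) (fun a => ?_) (fun a => ?_)
        (fun q => ?_) q
      · rw [map_colN45, map_colN45, hGm, hfm]
      · exact deg_colN45 (by omega) (totalDegree_pol_le _) (totalDegree_pol_le _) a
      · rw [← mem_span_iff45]
        have e : (fun a => map PowerSeries.constantCoeff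
            (colN45 M (1 + p * d) d (pol (G i)) (pol f) a)) =
            colN45 M (1 + p * d) d ((X 1 - C (γ i)) * (X 1 - C (γ i) - 1) ^ (p * d))
              (∏ j, (X 1 - C (γ j)) - C T * X 0 ^ d) := by
          funext a
          rw [map_colN45, hG0, hf0]
        rw [e]
        exact sp_norm45 hd (by omega) hT γ (a := γ i)
          (fun a => hspan _ (Sum.inl a)) (fun a => hspan _ (Sum.inr (Sum.inl a)))
          (fun l b => hspan _ (Sum.inr (Sum.inr (l, b)))) q
    choose D D' c h2 h3 using h1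
    exact ⟨D, D', c, fun i => ⟨h2 i, h3 i⟩⟩

end Pool.Agent.PC
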