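import Pool.Agent.Helper37.PC.Basic

/-!
# Project PLANE: the branch locus of the projection to the line (block DISC)

`f` of degree `d` in `y` with constant leading coefficient, `f (0, y)` separable: the resultant `D (x)` of `f` and
`∂ f / ∂ y` is not zero at `x = 0`, it is in the ideal `(f, ∂ f / ∂ y)`, and it divides a power of the separable
polynomial `rad (x D (x))`.
-/

universe u v w

namespace Pool.Agent.PC

open MvPolynomial

section core

variable {κ : Type u} [Field κ]

/-- the inner variable is `x = X 0`, the outer variable is `y = X 1` -/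
noncomputable def cv45 (κ : Type u) [Field κ] : Polynomial (Polynomial κ) →+* MvPolynomial (Fin 2) κ :=
  Polynomial.eval₂RingHom (Polynomial.eval₂RingHom C (X 0)) (X 1)

theorem cv45_C (a : Polynomial κ) : cv45 κ (Polynomial.C a) = Polynomial.aeval (X 0) a := by
  rw [cv45, Polynomial.coe_eval₂RingHom, Polynomial.eval₂_C]
  rfl

theorem cv45_X : cv45 κ Polynomial.X = X 1 := by
  rw [cv45, Polynomial.coe_eval₂RingHom, Polynomial.eval₂_X]

theorem pderiv_aeval45 (i : Fin 2) (a : Polynomial κ) :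
    pderiv i (Polynomial.aeval (X 0 : MvPolynomial (Fin 2) κ) a) =
      Polynomial.aeval (X 0) (Polynomial.derivative a) * pderiv i (X 0) := by
  rw [Derivation.map_aeval, smul_eq_mul]

theorem pderiv_one45 (P : Polynomial (Polynomial κ)) :
    pderiv 1 (cv45 κ P) = cv45 κ (Polynomial.derivative P) := by
  induction P using Polynomial.induction_on' with
  | add P Q hP hQ => rw [map_add, map_add, map_add, map_add, hP, hQ]
  | monomial n a =>
    have hcv : ∀ (m : ℕ) (b : Polynomial κ), cv45 κ (Polynomial.monomial m b) =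
        Polynomial.aeval (X 0) b * X 1 ^ m := by
      intro m b
      rw [← Polynomial.C_mul_X_pow_eq_monomial, map_mul, map_pow, cv45_C, cv45_X]
    rw [Polynomial.derivative_monomial, hcv, hcv, Derivation.leibniz, pderiv_aeval45,
      pderiv_X_of_ne (by decide), Derivation.leibniz_pow, pderiv_X_self, map_mul, map_natCast]
    simp only [smul_eq_mul, nsmul_eq_mul, mul_one, mul_zero, add_zero]
    ring

theorem polX_eq45 {M : ℕ} {p : Polynomial κ} (hp : p.natDegree ≤ M) :
    polX (fun i : Fin (M + 1) => p.coeff i) = Polynomial.aeval (X 0 : MvPolynomial (Fin 2) κ) p := by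
  rw [Polynomial.aeval_eq_sum_range' (Nat.lt_succ_of_le hp), polX,
    Fin.sum_univ_eq_sum_range (fun i => (C (p.coeff i) * X 0 ^ i : MvPolynomial (Fin 2) κ))]
  exact Finset.sum_congr rfl fun i _ => by rw [smul_eq_C_mul]

/-- Bezout with degrees -/
theorem sep_bezout45 {R : Polynomial κ} (hR : R.Separable) (hR1 : 1 ≤ R.natDegree) :
    ∃ U V : Polynomial κ, U.natDegree ≤ R.natDegree ∧ V.natDegree ≤ R.natDegree ∧
      U * R + V * Polynomial.derivative R = 1 := by
  obtain ⟨a, b, hab⟩ := hR
  have hR0 : R ≠ 0 := by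
    rintro rfl
    rw [Polynomial.natDegree_zero] at hR1
    omega
  have e0 := EuclideanDomain.div_add_mod b R
  have hb := Polynomial.natDegree_mod_lt b (show R.natDegree ≠ 0 by omega)
  refine ⟨a + (b / R) * Polynomial.derivative R, b % R, ?_, hb.le, ?_⟩
  · by_cases h0 : a + (b / R) * Polynomial.derivative R = 0
    · rw [h0, Polynomial.natDegree_zero]
      exact Nat.zero_le _
    · have h1 : (a + (b / R) * Polynomial.derivative R) * R =
          1 - (b % R) * Polynomial.derivative R := by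
        linear_combination hab + Polynomial.derivative R * e0
      have h2 := Polynomial.natDegree_mul h0 hR0
      have h3 := Polynomial.natDegree_derivative_le R
      have h4 := Polynomial.natDegree_sub_le (1 : Polynomial κ) ((b % R) * Polynomial.derivative R)
      have h5 := Polynomial.natDegree_mul_le (p := b % R) (q := Polynomial.derivative R)
      rw [Polynomial.natDegree_one] at h4
      rw [h1] at h2
      omega
  · linear_combination hab + Polynomial.derivative R * e0

/-- `f` as a polynomial in `y` over the polynomials in `x` -/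
noncomputable def PP45 {d : ℕ} (f : Mon d → κ) : Polynomial (Polynomial κ) :=
  ∑ q : Mon d, Polynomial.C (Polynomial.C (f q) * Polynomial.X ^ (q.1.1 : ℕ)) *
    Polynomial.X ^ (q.1.2 : ℕ)

theorem cv_PP45 {d : ℕ} (f : Mon d → κ) : cv45 κ (PP45 f) = pol f := by
  rw [PP45, map_sum]
  unfold pol mono
  refine Finset.sum_congr rfl fun q _ => ?_
  rw [map_mul, map_pow, cv45_C, cv45_X, map_mul, map_pow, Polynomial.aeval_X, Polynomial.aeval_C,
    mul_assoc]
  rfl

theorem natDegree_PP45 {d : ℕ} (f : Mon d → κ) : (PP45 f).natDegree ≤ d := by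
  refine Polynomial.natDegree_sum_le_of_forall_le _ _ fun q _ => ?_
  refine (Polynomial.natDegree_C_mul_X_pow_le _ _).trans ?_
  have := q.2
  omega

/-- `f (0, y)` -/
theorem map_PP45 {d : ℕ} (f : Mon d → κ) :
    (PP45 f).map (Polynomial.evalRingHom 0) =
      ∑ j : Fin (d + 1), Polynomial.C (f ⟨(0, j), by
        simpa using Nat.lt_succ_iff.1 j.2⟩) * Polynomial.X ^ (j : ℕ) := by
  rw [PP45, Polynomial.map_sum]
  symm
  refine Finset.sum_of_injOn (fun j : Fin (d + 1) => (⟨(0, j), by
    simpa using Nat.lt_succ_iff.1 j.2⟩ : Mon d)) ?_ ?_ ?_ ?_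
  · intro j _ j' _ h
    exact congrArg (fun q : Mon d => q.1.2) h
  · intro j _
    exact Finset.mem_coe.2 (Finset.mem_univ _)
  · intro q _ hq
    have h0 : (q.1.1 : ℕ) ≠ 0 := by
      intro h
      apply hq
      refine ⟨q.1.2, Finset.mem_coe.2 (Finset.mem_univ _), ?_⟩
      apply Subtype.ext
      refine Prod.ext (Fin.ext ?_) rfl
      exact h.symm
    rw [Polynomial.map_mul, Polynomial.map_C, map_mul, map_pow]
    simp [h0]
  · intro j _
    rw [Polynomial.map_mul, Polynomial.map_C, Polynomial.map_pow, Polynomial.map_X]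
    simp

theorem disc_core45 [CharZero κ] {d : ℕ} (hd : 1 ≤ d) {f : Mon d → κ}
    (hdeg : f ⟨(0, Fin.last d), by simp⟩ ≠ 0)
    (hsep : (∑ j : Fin (d + 1), Polynomial.C (f ⟨(0, j), by
      simpa using Nat.lt_succ_iff.1 j.2⟩) * Polynomial.X ^ (j : ℕ)).Separable) :
    ∃ (M N e : ℕ) (R U V : Fin (M + 1) → κ) (A B : Mon N → κ), 1 ≤ M ∧ R (Fin.last M) ≠ 0 ∧
      polX U * polX R + polX V * pderiv 0 (polX R) = 1 ∧
      pol A * pol f + pol B * pderiv 1 (pol f) = polX R ^ e := by
  classical
  obtain ⟨P, hP⟩ : ∃ P, P = PP45 f := ⟨_, rfl⟩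
  obtain ⟨P₀, hP₀⟩ : ∃ P₀, P₀ = P.map (Polynomial.evalRingHom 0) := ⟨_, rfl⟩
  have hP₀s : P₀ = ∑ j : Fin (d + 1), Polynomial.C (f ⟨(0, j), by
      simpa using Nat.lt_succ_iff.1 j.2⟩) * Polynomial.X ^ (j : ℕ) := by
    rw [hP₀, hP, map_PP45]
  have hPd : P.natDegree ≤ d := by rw [hP]; exact natDegree_PP45 f
  have hP₀d : P₀.natDegree = d := by
    refine le_antisymm ?_ ?_
    · rw [hP₀]
      exact (Polynomial.natDegree_map_le).trans hPd
    · apply Polynomial.le_natDegree_of_ne_zero
      rw [hP₀s, Polynomial.finsetSum_coeff, Finset.sum_eq_single (Fin.last d)]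
      · rw [Polynomial.coeff_C_mul, Polynomial.coeff_X_pow, if_pos (by simp), mul_one]
        exact hdeg
      · intro j _ hj
        rw [Polynomial.coeff_C_mul, Polynomial.coeff_X_pow, if_neg, mul_zero]
        intro h
        apply hj
        apply Fin.ext
        rw [Fin.val_last]
        exact h.symm
      · intro h
        exact absurd (Finset.mem_univ _) h
  have hsep' : P₀.Separable := by rw [hP₀s]; exact hsep
  have hPd' : (Polynomial.derivative P).natDegree ≤ d - 1 :=
    (Polynomial.natDegree_derivative_le P).trans (by omega)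
  have hP₀d' : (Polynomial.derivative P₀).natDegree = d - 1 := by
    rw [Polynomial.natDegree_derivative, hP₀d]
  obtain ⟨D, hD⟩ : ∃ D, D = P.resultant (Polynomial.derivative P) d (d - 1) := ⟨_, rfl⟩
  have hD0 : D ≠ 0 := by
    intro h0
    have h1 : (Polynomial.evalRingHom (0 : κ)) D = P₀.resultant (Polynomial.derivative P₀) := by
      rw [hD, ← Polynomial.resultant_map_map, ← Polynomial.derivative_map, ← hP₀, hP₀d, hP₀d']
    rw [h0, map_zero] at h1
    exact Polynomial.resultant_ne_zero P₀ (Polynomial.derivative P₀) hsep' h1.symm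
  obtain ⟨p, q, -, -, hpq⟩ := Polynomial.exists_mul_add_mul_eq_C_resultant (m := d) (n := d - 1) P
    (Polynomial.derivative P) hPd hPd' (Or.inl (by omega))
  rw [← hD] at hpq
  have hDX : D * Polynomial.X ≠ 0 := mul_ne_zero hD0 Polynomial.X_ne_zero
  obtain ⟨R₀, hR₀⟩ : ∃ R₀ : Polynomial κ, R₀ = UniqueFactorizationMonoid.radical (D * Polynomial.X) :=
    ⟨_, rfl⟩
  obtain ⟨e, he⟩ := UniqueFactorizationMonoid.exists_dvd_radical_self_pow hDX
  rw [← hR₀] at he
  obtain ⟨Q, hQ⟩ := he
  have hXR : Polynomial.X ∣ R₀ := by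
    rw [hR₀]
    exact (UniqueFactorizationMonoid.dvd_radical_iff_of_irreducible Polynomial.irreducible_X hDX).2
      (Dvd.intro_left _ rfl)
  have hR₀0 : R₀ ≠ 0 := by rw [hR₀]; exact UniqueFactorizationMonoid.radical_ne_zero
  have hR₀1 : 1 ≤ R₀.natDegree := by
    have h1 := Polynomial.natDegree_le_of_dvd hXR hR₀0
    rwa [Polynomial.natDegree_X] at h1
  have hR₀s : R₀.Separable := by
    rw [PerfectField.separable_iff_squarefree, hR₀]
    exact UniqueFactorizationMonoid.squarefree_radical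
  obtain ⟨U, V, hU, hV, hUV⟩ := sep_bezout45 hR₀s hR₀1
  -- the identity for `f`
  obtain ⟨a, ha⟩ : ∃ a : MvPolynomial (Fin 2) κ,
      a = cv45 κ (p * Polynomial.C (Polynomial.X * Q)) := ⟨_, rfl⟩
  obtain ⟨b, hb⟩ : ∃ b : MvPolynomial (Fin 2) κ,
      b = cv45 κ (q * Polynomial.C (Polynomial.X * Q)) := ⟨_, rfl⟩
  obtain ⟨N, hN⟩ : ∃ N, N = max a.totalDegree b.totalDegree := ⟨_, rfl⟩
  obtain ⟨A, hA⟩ := exists_pol (P := a) (n := N) (by rw [hN]; exact le_max_left _ _)
  obtain ⟨B, hB⟩ := exists_pol (P := b) (n := N) (by rw [hN]; exact le_max_right _ _)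
  refine ⟨R₀.natDegree, N, e, fun i => R₀.coeff i, fun i => U.coeff i, fun i => V.coeff i, A, B, hR₀1,
    ?_, ?_, ?_⟩
  · change R₀.coeff R₀.natDegree ≠ 0
    exact Polynomial.leadingCoeff_ne_zero.2 hR₀0
  · rw [polX_eq45 hU, polX_eq45 hV, polX_eq45 le_rfl, pderiv_aeval45, pderiv_X_self, mul_one, ← map_mul,
      ← map_mul, ← map_add, hUV, map_one]
  · rw [polX_eq45 le_rfl, hA, hB, ha, hb, ← cv_PP45, ← hP, pderiv_one45, ← map_mul, ← map_mul, ← map_add,
      ← map_pow, ← cv45_C]
    have h1 : Polynomial.C (R₀ ^ e) = Polynomial.C D * Polynomial.C (Polynomial.X * Q) := by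
      rw [hQ, ← Polynomial.C_mul, mul_assoc]
    have h2 : p * Polynomial.C (Polynomial.X * Q) * P +
        q * Polynomial.C (Polynomial.X * Q) * Polynomial.derivative P = Polynomial.C (R₀ ^ e) := by
      rw [h1, ← hpq]
      ring
    exact congrArg (cv45 κ) h2

end core

theorem map_polX45 {R : Type u} {R' : Type v} [CommSemiring R] [CommSemiring R'] (φ : R →+* R') {n : ℕ}
    (c : Fin (n + 1) → R) : map φ (polX c) = polX fun i => φ (c i) := by
  unfold polX
  rw [map_sum]
  refine Finset.sum_congr rfl fun i _ => ?_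
  rw [map_mul, map_C, map_pow, map_X]

/-- **DISC.**  The branch locus of the projection to the line.  `f` has coefficients in `k0` and
`∑ f (0, j) y ^ j` is separable of degree `d`; then `A f + B ∂f/∂y = R(x) ^ e`, `R` separable. -/
theorem exists_disc {S : Type u} [Field S] [CharZero S] {k0 : Subfield S} {d : ℕ} (hd : 2 ≤ d)
    {f : Mon d → S} (hf : ∀ a, f a ∈ k0)
    (hdeg : f ⟨(0, Fin.last d), by simp⟩ ≠ 0)
    (hsep : (∑ j : Fin (d + 1), Polynomial.C (f ⟨(0, j), by
      simpa using Nat.lt_succ_iff.1 j.2⟩) * Polynomial.X ^ (j : ℕ)).Separable) :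
    ∃ (M N e : ℕ) (R U V : Fin (M + 1) → S) (A B : Mon N → S), 1 ≤ M ∧ R (Fin.last M) ≠ 0 ∧
      (∀ i, R i ∈ k0) ∧ (∀ i, U i ∈ k0) ∧ (∀ i, V i ∈ k0) ∧ (∀ a, A a ∈ k0) ∧ (∀ a, B a ∈ k0) ∧
      polX U * polX R + polX V * pderiv 0 (polX R) = 1 ∧
      pol A * pol f + pol B * pderiv 1 (pol f) = polX R ^ e := by
  have hc : CharZero k0 := (algebraMap k0 S).charZero
  let f' : Mon d → k0 := fun a => ⟨f a, hf a⟩
  have hdeg' : f' ⟨(0, Fin.last d), by simp⟩ ≠ 0 := fun h => hdeg (congrArg Subtype.val h)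
  have hsep' : (∑ j : Fin (d + 1), Polynomial.C (f' ⟨(0, j), by
      simpa using Nat.lt_succ_iff.1 j.2⟩) * Polynomial.X ^ (j : ℕ)).Separable := by
    have e : (∑ j : Fin (d + 1), Polynomial.C (f' ⟨(0, j), by
      simpa using Nat.lt_succ_iff.1 j.2⟩) * Polynomial.X ^ (j : ℕ)).map k0.subtype =
        ∑ j : Fin (d + 1), Polynomial.C (f ⟨(0, j), by
          simpa using Nat.lt_succ_iff.1 j.2⟩) * Polynomial.X ^ (j : ℕ) := by
      rw [Polynomial.map_sum]
      refine Finset.sum_congr rfl fun j _ => ?_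
      rw [Polynomial.map_mul, Polynomial.map_C, Polynomial.map_pow, Polynomial.map_X]
      rfl
    rw [← Polynomial.separable_map k0.subtype, e]
    exact hsep
  obtain ⟨M, N, e, R, U, V, A, B, hM, hR, h1, h2⟩ := disc_core45 (by omega) hdeg' hsep'
  refine ⟨M, N, e, fun i => R i, fun i => U i, fun i => V i, fun a => A a, fun a => B a, hM,
    fun h => hR (Subtype.ext h), fun i => (R i).2, fun i => (U i).2, fun i => (V i).2,
    fun a => (A a).2, fun a => (B a).2, ?_, ?_⟩
  · have h3 := congrArg (map k0.subtype) h1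
    rw [map_add, map_mul, map_mul, map_one, ← pderiv_map, map_polX45, map_polX45, map_polX45] at h3
    exact h3
  · have h3 := congrArg (map k0.subtype) h2
    rw [map_add, map_mul, map_mul, map_pow, ← pderiv_map, map_polX45, map_pol, map_pol, map_pol] at h3
    exact h3

end Pool.Agent.PC
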